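import Pool.Agent.H9.RE3

namespace Pool.Agent.Results.MP_7112d2_mp.Yes
open Matrix Pool.Agent.H9.RE

/-- Channels with zero divergence expansion coefficient and positive Riemannian one. -/
theorem result : ∃ (a b c : ℕ) (N : Matrix (Fin a) (Fin a) ℂ → Matrix (Fin b) (Fin b) ℂ)
    (M : Matrix (Fin a) (Fin a) ℂ → Matrix (Fin c) (Fin c) ℂ) (f κ : ℝ → ℝ),
    IsChannel N ∧ IsChannel M ∧
    (OpConvex f ∧ f 1 = 0 ∧ 0 < deriv (deriv f) 1) ∧
    (OpConvex κ ∧ (∀ x, 0 < x → x * κ x = κ (1 / x)) ∧ κ 1 = 1 ∧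
      ContinuousWithinAt κ (Set.Ici 0) 0) ∧
    IsGLB (divRatios f N M) 0 ∧ ∃ η : ℝ, 0 < η ∧ IsGLB (riemRatios κ N M) η := by
  refine ⟨3, 3, 2, NN, MM, fun x => (x - 1) ^ 2, fun x => 2 / (1 + x), chanN, chanM,
    ⟨conv_sq, by norm_num, ?_⟩, ⟨conv_kap, ?_, by norm_num, ?_⟩, div_glb, _, ?_,
    isGLB_csInf riem_ne ⟨_, riem_lb⟩⟩
  · have : deriv (fun x : ℝ => (x - 1) ^ 2) = fun x => 2 * x - 2 := by
      funext x
      have h := ((hasDerivAt_id' x).sub_const 1).fun_mul ((hasDerivAt_id' x).sub_const 1)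
      simp only [sq]
      rw [h.deriv]; ring
    rw [this]
    have h : HasDerivAt (fun x : ℝ => 2 * x - 2) 2 1 := by
      simpa using ((hasDerivAt_id (1 : ℝ)).const_mul 2).sub_const 2
    rw [h.deriv]; norm_num
  · intro x hx
    field_simp
    ring
  · exact (ContinuousAt.div continuousAt_const (by fun_prop) (by norm_num)).continuousWithinAt
  · exact lt_of_lt_of_le (by norm_num) (le_csInf riem_ne riem_lb)

end Pool.Agent.Results.MP_7112d2_mp.Yes
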